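import Pool.Agent.Lib.MP_e276f9_lc.Main

/-! Which small guessing models are not guessing for any smaller parameter. -/

namespace Pool.Agent.Results.MP_e276f9_lc.Classification

open Pool.Agent.Lib.MP_e276f9_lc

universe u

theorem result (θ δ : Cardinal.{u}) (M : ZFSet.{u}) (hθ : θ.IsRegular) (hδ : δ.IsRegular)
    (hM : Elem M θ) (hc : M.card < δ) (hκ : δ.ord ≤ kap M) (hp : 2 ^ (kap M).card < θ)
    (hg : Guessing δ M) :
    (¬ Guessing0 M ∧ ∀ γ : Cardinal.{u}, γ.IsRegular → γ ≤ M.card → ¬ Guessing γ M) ↔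
      M.card.ord.toZFSet ⊆ M ∧
        (M.card.IsSingular ∨ (M.card.ord.toZFSet ∈ M ∧ WeakKurepa M.card)) :=
  classification hθ hδ hM hc hκ hp hg

end Pool.Agent.Results.MP_e276f9_lc.Classification
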